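import Pool.Agent.Q216.RSA.Asym

/-!
# The variance of the jamming count of random sequential adsorption of `r`-mers

For `r`-mers on `{1, ..., n}` the variance of the number of `r`-mers in the jammed configuration
divided by `n` converges to the explicit constant `v r` defined below.
-/

set_option autoImplicit false

namespace Pool.Agent.Results.MP_669328_pr.JammingVariance

open Finset Filter Topology Pool.Agent.Q216.RSA

/-- The constant `2 e ^ {-2 Λ(1)} (∑_{j < r} (1 - c (j + r)) ^ 2 ∫_0^1 (1 - u) u ^ j e ^ {2 Λ(u)} du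
+ ∫_0^1 e ^ {2 Λ(u)} (1 - u) ^ {-2} (u ^ {r - 1} e ^ {-2 Λ(u)} ∫_0^u e ^ {2 Λ(t)} dt
- c u + (1 - c r) (1 - u)) ^ 2 du)`. -/
noncomputable def v (r : ℕ) : ℝ :=
  2 * Real.exp (-2 * Lam r 1) *
    ((∑ j ∈ Finset.range r, (1 - cc r * ((j : ℝ) + r)) ^ 2 *
        (∫ u in (0 : ℝ)..1, (1 - u) * u ^ j * Real.exp (2 * Lam r u))) +
      (∫ u in (0 : ℝ)..1, Real.exp (2 * Lam r u) / (1 - u) ^ 2 *
        (u ^ (r - 1) * Real.exp (-2 * Lam r u) * (∫ t in (0 : ℝ)..u, Real.exp (2 * Lam r t)) -
          cc r * u + (1 - cc r * r) * (1 - u)) ^ 2))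

/-- **The asymptotic variance of the jamming count.** -/
theorem result (r : ℕ) (hr : 1 ≤ r) :
    Tendsto (fun n : ℕ =>
        ProbabilityTheory.variance (fun c : ℕ => (c : ℝ)) (countLaw r n).toMeasure / (n : ℝ))
      atTop (𝓝 (v r)) := by
  have h1 := vv_limit hr
  have h2 : (∑' k, sig r k * (kap r k 1 - kap r (k + 1) 1)) / ww r 1 = v r := by
    rw [sum_sq_part hr, conv_part hr]
    unfold v
    have e1 : ∑ j ∈ Finset.range r, kap r j 1 * eps r j ^ 2 =
        ∑ j ∈ Finset.range r, (1 - cc r * ((j : ℝ) + r)) ^ 2 *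
          (∫ u in (0 : ℝ)..1, (1 - u) * u ^ j * Real.exp (2 * Lam r u)) := by
      refine Finset.sum_congr rfl fun j hj => ?_
      rw [eps_small (Finset.mem_range.mp hj), mul_comm]
      rfl
    have e2 : ∫ u in (0 : ℝ)..1, (1 - u) ^ 2 * ww r u * EE r u ^ 2 =
        ∫ u in (0 : ℝ)..1, Real.exp (2 * Lam r u) / (1 - u) ^ 2 *
        (u ^ (r - 1) * Real.exp (-2 * Lam r u) * (∫ t in (0 : ℝ)..u, Real.exp (2 * Lam r t)) -
          cc r * u + (1 - cc r * r) * (1 - u)) ^ 2 := by
      refine intervalIntegral.integral_congr_ae ?_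
      have hne : ∀ᵐ u : ℝ, u ≠ 1 := by
        rw [MeasureTheory.ae_iff]
        simp
      filter_upwards [hne] with u hu hu2
      rw [Set.uIoc_of_le zero_le_one] at hu2
      have hu3 : u < 1 := lt_of_le_of_ne hu2.2 hu
      have hc := ee_closed hr hu2.1.le hu3
      have h4 : (1 - u) ^ 2 ≠ 0 := by
        have : 1 - u ≠ 0 := by intro h; apply hu; linarith
        positivity
      have h5 : EE r u = (u ^ (r - 1) / ww r u * II r u - cc r * u + (1 - cc r * r) * (1 - u)) /
          (1 - u) ^ 2 := by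
        rw [eq_div_iff h4, mul_comm]
        exact hc
      have h6 : u ^ (r - 1) * Real.exp (-2 * Lam r u) * (∫ t in (0 : ℝ)..u, Real.exp (2 * Lam r t)) =
          u ^ (r - 1) / ww r u * II r u := by
        unfold II
        change u ^ (r - 1) * Real.exp (-2 * Lam r u) * (∫ t in (0 : ℝ)..u, ww r t) = _
        unfold ww
        rw [show -2 * Lam r u = -(2 * Lam r u) by ring, Real.exp_neg]
        rfl
      rw [h6, h5]
      change (1 - u) ^ 2 * ww r u * _ = ww r u / (1 - u) ^ 2 * _
      field_simp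
    rw [e1, e2]
    have e3 : Real.exp (-2 * Lam r 1) = 1 / ww r 1 := by
      unfold ww
      rw [show -2 * Lam r 1 = -(2 * Lam r 1) by ring, Real.exp_neg, one_div]
    rw [e3]
    ring
  rw [h2] at h1
  refine h1.congr fun n => ?_
  rw [var_countLaw hr]

end Pool.Agent.Results.MP_669328_pr.JammingVariance
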